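import Mathlib
import Pool.Agent.H61.SQ.Main

/-!
# Tate classes on `Z × X × Y`, where `X` is arbitrary (for instance any curve)

`K` is a Galois number field with a valuation `v`, `v q = 1`; for a Weil number `x` of `K` of
weight `w` the function `σ ↦ 2 v(σ x) - w` on `Gal(K/ℚ)` measures how far the slopes of `x` are
from `w / 2`, and `ip` is the inner product of two such functions.  `M`, `U`, `V` stand for
`Hʷ(Z)`, `Hᵇ(X)` and `H¹(Y)`, with `Z` and `X` smooth projective and `Y` an abelian variety over a
finite field, and `M ⊗ U ⊗ Λ V` for `Hʷ(Z) ⊗ Hᵇ(X) ⊗ H*(Y)`, with coefficients in `C`.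
-/

namespace Pool.Agent.Results.MP_0fca13_ag.ArbitraryCurve

open Pool.Agent.H61.SQ
open scoped TensorProduct

/-- Let the eigenvalues `z`, `a k`, `y i` of Frobenius on `M`, `U`, `V` be Weil numbers of weights
`w`, `b`, `1` (`U` and `V` semisimple).  Assume that

* the slopes of each `z` are orthogonal to those of all `y i`;
* the slopes of each `a k` have square norm at most `N`, which is automatic if `b ² ≤ N`.

Then every Tate class of `M ⊗ U ⊗ Λ V` lies in the least subspace which is closed under
multiplication by the Tate classes of degree two of `V` and contains, for the products `mono l` of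
vectors `e i` of which no two have `y i * y i' = q` up to a root of unity,

* the Tate classes in `M ⊗ U ⊗ mono l` for which `l` is empty, or the slopes of the product of the
  `y i`, `i ∈ l`, have square norm less than `N`, and
* the products of a Tate class of `M` and a Tate class in `U ⊗ mono l` for which this square norm
  is `N`.

Let `X` be any curve, so that `b ≤ 1` and `N = 1`, and let `Y` be ordinary.  If the inner products
of the slopes of `y i` and `y i'` are not negative unless `y i * y i'` is `q` up to a root of unity,
for example if `Y` is a product of elliptic curves, then the square norm above is at least the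
number of factors, and the generators are the Tate classes of `M ⊗ U` and the products of a Tate
class of `M` and a divisor class in `U ⊗ V`. -/
theorem result {K : Type} [Field K] [NumberField K] [IsGalois ℚ K]
    (v : AddValuation K (WithTop ℚ)) {p f q : ℕ} (hp : p.Prime) (hf : f ≠ 0) (hq : q = p ^ f)
    (hv : v (q : K) = 1)
    {C : Type} [Field C] [IsAlgClosed C] (j : K →+* C)
    {M U V : Type} [AddCommGroup M] [Module C M] [Module.Finite C M] [AddCommGroup U]
    [Module C U] [AddCommGroup V] [Module C V]
    (FM : Module.End C M) (FU : Module.End C U) (FV : Module.End C V) (w b : ℕ) (N : ℚ)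
    {κ ι : Type} (u : Module.Basis κ C U) (a : κ → K) (hu : ∀ k, FU (u k) = j (a k) • u k)
    (e : Module.Basis ι C V) (y : ι → K) (he : ∀ i, FV (e i) = j (y i) • e i)
    (hz : ∀ z, FM.HasEigenvalue z →
      ∃ x : K, j x = z ∧ IsWeil q w x ∧ ∀ i, ip v w x 1 (y i) = 0)
    (ha : ∀ k, IsWeil q b (a k)) (hN : (b : ℚ) ^ 2 ≤ N ∨ ∀ k, ip v b (a k) b (a k) ≤ N)
    (hy : ∀ i, IsWeil q 1 (y i)) (m : ℕ) (hm : Even m)
    (x : M ⊗[C] (U ⊗[C] ExteriorAlgebra C V)) (hx : IsTate q m (frob FM FU FV) x) :
    Known v q w b N FM FU FV y e x :=
  main v j hp hf hq hv u a hu e y he hz ha hN hy m hm x hx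

end Pool.Agent.Results.MP_0fca13_ag.ArbitraryCurve
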